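import Pool.Agent.Helper25.V0.Main
import Pool.Agent.Helper19.V5.Defs

/-!
# From the small denominators to Vaughan's inequality with `4/5 - d` for the Moebius function

`REG` is the bound for `QQ N x a q ≤ N^(1/2 - c0)` (helper19, helper62: `regA` with `κ = 0`). Every `x` has an
approximation `c/r` with `r ≤ N^(251/500)` and `|x - c/r| ≤ 1/(r N^(251/500))`: for `r ≥ N^(249/500)` the bound is
`v0`, for `r < N^(249/500)` it is `REG`, and `QQ N x c r ≥ min(q, N/q)/2` for every `a/q` with `|x - a/q| ≤ 1/q²`.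
-/

set_option autoImplicit false

namespace Pool.Agent.Helper25.VF

open Pool.Helper19.V4 Pool.Helper19.V5

/-- The bound for small denominators. -/
def REG : Prop := ∀ c0 : ℝ, 0 < c0 →
    ∃ d : ℝ, 0 < d ∧ ∀ ε : ℝ, 0 < ε → ∃ C : ℝ, 0 < C ∧ ∀ N : ℕ, 1 ≤ N → ∀ (x : ℝ) (a : ℤ) (q : ℕ), 1 ≤ q →
      IsCoprime a (q : ℤ) → QQ N x a q ≤ (N : ℝ) ^ ((1 : ℝ) / 2 - c0) →
        ‖FM N x‖ ≤ C * (N : ℝ) ^ ε * ((N : ℝ) / Real.sqrt (QQ N x a q) + (N : ℝ) ^ ((4 : ℝ) / 5 - d))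

/-- `‖F_N(x)‖ ≤ N` -/
lemma FM_triv (N : ℕ) (x : ℝ) : ‖FM N x‖ ≤ N := by
  unfold FM
  refine (norm_sum_le _ _).trans ?_
  have h1 : ∀ n ∈ Finset.Icc 1 N, ‖((ArithmeticFunction.moebius n : ℤ) : ℂ) * ex (n * x)‖ ≤ 1 := by
    intro n _
    rw [norm_mul, norm_ex, mul_one, Complex.norm_intCast]
    exact_mod_cast ArithmeticFunction.abs_moebius_le_one
  refine (Finset.sum_le_sum h1).trans ?_
  rw [Finset.sum_const, Nat.card_Icc, nsmul_eq_mul, mul_one]
  simp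

/-- The comparison of two fractions near `x`. -/
lemma QQ_lower {N x : ℝ} (hN : 0 < N) {a c : ℤ} {q r : ℕ} (hq : 1 ≤ q) (hr : 1 ≤ r)
    (haq : IsCoprime a (q : ℤ)) (hcr : IsCoprime c (r : ℤ)) (hx : |x - a / q| ≤ 1 / (q : ℝ) ^ 2) :
    (q : ℝ) / 2 ≤ QQ N x c r ∨ N / q / 2 ≤ QQ N x c r := by
  have hq1 : (1 : ℝ) ≤ q := by exact_mod_cast hq
  have hr1 : (1 : ℝ) ≤ r := by exact_mod_cast hr
  have hq0 : (0 : ℝ) < q := by linarith
  have hr0 : (0 : ℝ) < r := by linarith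
  have hQ : QQ N x c r = r * (1 + N * |x - c / r|) := rfl
  have hQr : (r : ℝ) ≤ QQ N x c r := QQ_ge hN.le
  rcases le_or_gt ((q : ℝ) / 2) r with h | h
  · exact Or.inl (h.trans hQr)
  · right
    have hne : c * (q : ℤ) ≠ a * (r : ℤ) := by
      intro heq
      have h1 : (q : ℤ) ∣ (r : ℤ) := by
        have : (q : ℤ) ∣ a * (r : ℤ) := ⟨c, by rw [← heq]; ring⟩
        exact haq.symm.dvd_of_dvd_mul_left this
      have h2 : q ≤ r := Nat.le_of_dvd (by omega) (by exact_mod_cast h1)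
      have h3 : (q : ℝ) ≤ r := by exact_mod_cast h2
      linarith
    have h1 : 1 ≤ |(c * (q : ℤ) - a * (r : ℤ) : ℤ)| := Int.one_le_abs (sub_ne_zero.mpr hne)
    have h2 : (1 : ℝ) ≤ |(c : ℝ) * q - a * r| := by exact_mod_cast h1
    have h3 : (c : ℝ) * q - a * r = (c / r - a / q) * (q * r) := by
      field_simp
    have h4 : 1 ≤ |(c : ℝ) / r - a / q| * (q * r) := by
      rw [h3, abs_mul, abs_of_pos (mul_pos hq0 hr0)] at h2
      exact h2
    have h5 : |(c : ℝ) / r - a / q| ≤ |x - c / r| + |x - a / q| := by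
      have e1 : (c : ℝ) / r - a / q = -(x - c / r) + (x - a / q) := by ring
      rw [e1]
      refine (abs_add_le _ _).trans ?_
      rw [abs_neg]
    have h6 : |x - a / q| * (q * r) ≤ 1 / 2 := by
      calc |x - a / q| * (q * r) ≤ 1 / (q : ℝ) ^ 2 * (q * r) :=
            mul_le_mul_of_nonneg_right hx (by positivity)
        _ = r / q := by field_simp
        _ ≤ 1 / 2 := by
            rw [div_le_iff₀ hq0]
            linarith
    have h7 : 1 / 2 ≤ |x - c / r| * (q * r) := by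
      have h8 : |(c : ℝ) / r - a / q| * (q * r) ≤ (|x - c / r| + |x - a / q|) * (q * r) :=
        mul_le_mul_of_nonneg_right h5 (by positivity)
      linarith [add_mul |x - c / r| |x - a / q| ((q : ℝ) * r)]
    rw [hQ, div_div, div_le_iff₀ (by positivity)]
    have h9 : N * (1 / 2) ≤ N * (|x - c / r| * (q * r)) := mul_le_mul_of_nonneg_left h7 hN.le
    have h10 : 0 ≤ (r : ℝ) * (q * 2) := by positivity
    nlinarith

/-- **Vaughan's inequality for the Moebius function with an exponent below `4/5`.** -/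
theorem clean (hA : REG) : ∃ d : ℝ, 0 < d ∧ ∀ ε : ℝ, 0 < ε → ∃ C : ℝ, 0 < C ∧ ∀ N : ℕ, 1 ≤ N →
    ∀ (x : ℝ) (a : ℤ) (q : ℕ), 1 ≤ q → IsCoprime a (q : ℤ) → |x - a / q| ≤ 1 / (q : ℝ) ^ 2 →
      ‖FM N x‖ ≤ C * (N : ℝ) ^ ε * ((N : ℝ) / Real.sqrt q + (N : ℝ) ^ ((4 : ℝ) / 5 - d) +
        Real.sqrt (q * N)) := by
  obtain ⟨d1, hd1, C1, hC1, h1⟩ := Pool.Agent.Helper25.V0.v0 (κ0 := 249 / 500) (κ1 := 251 / 500)
    (by norm_num) (by norm_num)
  obtain ⟨d2, hd2, h2⟩ := hA (1 / 1000) (by norm_num)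
  obtain ⟨d, hd, hdd1, hdd2, hd3⟩ : ∃ d : ℝ, 0 < d ∧ d ≤ d1 ∧ d ≤ d2 ∧ d ≤ 1 / 2 :=
    ⟨min d1 (min d2 (1 / 2)), lt_min hd1 (lt_min hd2 (by norm_num)), min_le_left _ _,
      (min_le_right _ _).trans (min_le_left _ _), (min_le_right _ _).trans (min_le_right _ _)⟩
  refine ⟨d, hd, fun ε hε => ?_⟩
  obtain ⟨C2, hC2, h2⟩ := h2 ε hε
  obtain ⟨B, hB, hB0⟩ : ∃ B : ℝ, B = 2 ^ (1000 : ℕ) ∧ 0 < B := ⟨_, rfl, by positivity⟩
  refine ⟨2 * C1 + 2 * C2 + B, by positivity, fun N hN x a q hq haq hx => ?_⟩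
  have hN1 : (1 : ℝ) ≤ N := by exact_mod_cast hN
  have hN0 : (0 : ℝ) < N := by linarith
  have hq0 : (0 : ℝ) < q := by exact_mod_cast hq
  have hNε : 1 ≤ (N : ℝ) ^ ε := Real.one_le_rpow hN1 hε.le
  have hP1 : 0 ≤ (N : ℝ) / Real.sqrt q := by positivity
  have hP2 : 1 ≤ (N : ℝ) ^ ((4 : ℝ) / 5 - d) := Real.one_le_rpow hN1 (by linarith)
  have hP3 : 0 ≤ Real.sqrt (q * N) := Real.sqrt_nonneg _
  obtain ⟨Y, hY⟩ : ∃ Y : ℝ, Y = (N : ℝ) / Real.sqrt q + (N : ℝ) ^ ((4 : ℝ) / 5 - d) +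
    Real.sqrt (q * N) := ⟨_, rfl⟩
  rw [← hY]
  have hY1 : 1 ≤ Y := by rw [hY]; linarith
  have hYP : (N : ℝ) ^ ((4 : ℝ) / 5 - d) ≤ Y := by rw [hY]; linarith
  have hεY : 1 ≤ (N : ℝ) ^ ε * Y := one_le_mul_of_one_le_of_one_le hNε hY1
  have hYε : Y ≤ (N : ℝ) ^ ε * Y := by nlinarith
  rcases le_or_gt (N : ℝ) B with hsmall | hlarge
  · have h3 := FM_triv N x
    have h4 : B * 1 ≤ B * ((N : ℝ) ^ ε * Y) := mul_le_mul_of_nonneg_left hεY hB0.le
    have h5 : 0 ≤ (2 * C1 + 2 * C2) * ((N : ℝ) ^ ε * Y) := by positivity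
    calc ‖FM N x‖ ≤ (2 * C1 + 2 * C2) * ((N : ℝ) ^ ε * Y) + B * ((N : ℝ) ^ ε * Y) := by
          linarith
      _ = (2 * C1 + 2 * C2 + B) * (N : ℝ) ^ ε * Y := by ring
  · -- the approximation
    obtain ⟨D, hD⟩ : ∃ D : ℝ, D = (N : ℝ) ^ ((251 : ℝ) / 500) := ⟨_, rfl⟩
    have hD1 : 1 ≤ D := by rw [hD]; exact Real.one_le_rpow hN1 (by norm_num)
    have hD0 : 0 < D := by linarith
    have hn : 0 < ⌊D⌋₊ := Nat.floor_pos.mpr hD1
    obtain ⟨s, hs1, hs2⟩ := Real.exists_rat_abs_sub_le_and_den_le x hn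
    have hsden : (0 : ℝ) < s.den := by exact_mod_cast s.den_pos
    have hsD : (s.den : ℝ) ≤ D := le_trans (by exact_mod_cast hs2) (Nat.floor_le hD0.le)
    have hfl : D < (⌊D⌋₊ : ℝ) + 1 := Nat.lt_floor_add_one D
    have hscast : ((s : ℚ) : ℝ) = (s.num : ℝ) / (s.den : ℝ) := by
      exact_mod_cast congrArg (fun t : ℚ => (t : ℝ)) (Rat.num_div_den s).symm
    rw [hscast] at hs1
    have hs3 : |x - (s.num : ℝ) / (s.den : ℝ)| ≤ 1 / (D * s.den) := by
      refine le_trans hs1 (one_div_le_one_div_of_le (by positivity) ?_)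
      exact mul_le_mul_of_nonneg_right hfl.le hsden.le
    have hcop : IsCoprime s.num (s.den : ℤ) := by
      rw [Int.isCoprime_iff_gcd_eq_one]
      have := s.reduced
      rwa [Nat.coprime_iff_gcd_eq_one] at this
    obtain ⟨c, r, hc, hr⟩ : ∃ (c : ℤ) (r : ℕ), c = s.num ∧ r = s.den := ⟨_, _, rfl, rfl⟩
    rw [← hc, ← hr] at hs3 hcop
    rw [← hr] at hsden hsD
    have hr1 : 1 ≤ r := by rw [hr]; exact s.den_pos
    have hND : (N : ℝ) / D = (N : ℝ) ^ ((249 : ℝ) / 500) := by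
      rw [hD, div_eq_iff (by positivity), ← Real.rpow_add hN0]
      norm_num
    have hs4 : N * |x - (c : ℝ) / r| * r ≤ (N : ℝ) ^ ((249 : ℝ) / 500) := by
      have e1 : |x - (c : ℝ) / r| * (D * r) ≤ 1 := by
        have := mul_le_mul_of_nonneg_right hs3 (by positivity : 0 ≤ D * (r : ℝ))
        rwa [one_div, inv_mul_cancel₀ (by positivity)] at this
      rw [← hND, le_div_iff₀ hD0]
      nlinarith
    rcases le_or_gt ((N : ℝ) ^ ((249 : ℝ) / 500)) r with hbig | hsm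
    · -- large denominators
      have h3 := h1 N hN x c r hr1 hcop hbig (by rw [← hD]; exact hsD)
      have h4 : N * |x - (c : ℝ) / r| ≤ 1 := by
        by_contra hcon
        push Not at hcon
        nlinarith
      have h5 : (N : ℝ) ^ ((4 : ℝ) / 5 - d1) ≤ (N : ℝ) ^ ((4 : ℝ) / 5 - d) :=
        Real.rpow_le_rpow_of_exponent_le hN1 (by linarith)
      have h6 : 0 ≤ N * |x - (c : ℝ) / r| := by positivity
      have h7 : C1 * (1 + N * |x - (c : ℝ) / r|) ≤ 2 * C1 := by nlinarith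
      have h8 : C1 * (1 + N * |x - (c : ℝ) / r|) * (N : ℝ) ^ ((4 : ℝ) / 5 - d1) ≤
          2 * C1 * ((N : ℝ) ^ ε * Y) :=
        mul_le_mul h7 (h5.trans (hYP.trans hYε)) (by positivity) (by positivity)
      have h9 : 0 ≤ (2 * C2 + B) * ((N : ℝ) ^ ε * Y) := by positivity
      calc ‖FM N x‖ ≤ 2 * C1 * ((N : ℝ) ^ ε * Y) + (2 * C2 + B) * ((N : ℝ) ^ ε * Y) := by
            linarith
        _ = (2 * C1 + 2 * C2 + B) * (N : ℝ) ^ ε * Y := by ring
    · -- small denominators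
      have hQdef : QQ N x c r = r * (1 + N * |x - c / r|) := rfl
      have hQle : QQ N x c r ≤ (N : ℝ) ^ ((1 : ℝ) / 2 - 1 / 1000) := by
        have e1 : QQ N x c r ≤ 2 * (N : ℝ) ^ ((249 : ℝ) / 500) := by
          rw [hQdef]
          nlinarith
        have e2 : (2 : ℝ) ≤ (N : ℝ) ^ ((1 : ℝ) / 1000) := by
          have e3 : ((2 : ℝ) ^ (1000 : ℕ)) ^ ((1 : ℝ) / 1000) = 2 := by
            rw [← Real.rpow_natCast, ← Real.rpow_mul (by norm_num)]
            norm_num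
          rw [← e3]
          rw [hB] at hlarge
          exact Real.rpow_le_rpow (by positivity) hlarge.le (by norm_num)
        have e4 : (N : ℝ) ^ ((1 : ℝ) / 2 - 1 / 1000) = (N : ℝ) ^ ((1 : ℝ) / 1000) *
            (N : ℝ) ^ ((249 : ℝ) / 500) := by
          rw [← Real.rpow_add hN0]
          norm_num
        rw [e4]
        refine e1.trans ?_
        exact mul_le_mul_of_nonneg_right e2 (by positivity)
      have h3 := h2 N hN x c r hr1 hcop hQle
      have hQ0 : 0 < QQ N x c r := by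
        have := QQ_pos (x := x) (a := c) hN0.le hr1
        linarith
      have h4 : (N : ℝ) / Real.sqrt (QQ N x c r) ≤ 2 * ((N : ℝ) / Real.sqrt q + Real.sqrt (q * N)) := by
        have hs2' : Real.sqrt 2 ≤ 2 := by
          rw [Real.sqrt_le_left (by norm_num)]
          norm_num
        have hs20 : 0 < Real.sqrt 2 := Real.sqrt_pos.mpr (by norm_num)
        rcases QQ_lower hN0 hq hr1 haq hcop hx with h | h
        · have e1 : Real.sqrt (q / 2) ≤ Real.sqrt (QQ N x c r) := Real.sqrt_le_sqrt h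
          have e2 : (N : ℝ) / Real.sqrt (QQ N x c r) ≤ N / Real.sqrt (q / 2) :=
            div_le_div_of_nonneg_left hN0.le (Real.sqrt_pos.mpr (by positivity)) e1
          have e3 : (N : ℝ) / Real.sqrt (q / 2) = Real.sqrt 2 * (N / Real.sqrt q) := by
            rw [Real.sqrt_div hq0.le]
            field_simp
          have e4 : Real.sqrt 2 * (N / Real.sqrt q) ≤ 2 * (N / Real.sqrt q) :=
            mul_le_mul_of_nonneg_right hs2' hP1
          linarith
        · have e1 : Real.sqrt (N / q / 2) ≤ Real.sqrt (QQ N x c r) := Real.sqrt_le_sqrt h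
          have e2 : (N : ℝ) / Real.sqrt (QQ N x c r) ≤ N / Real.sqrt (N / q / 2) :=
            div_le_div_of_nonneg_left hN0.le (Real.sqrt_pos.mpr (by positivity)) e1
          have e3 : (N : ℝ) / Real.sqrt (N / q / 2) = Real.sqrt 2 * Real.sqrt (q * N) := by
            rw [Real.sqrt_div (by positivity), Real.sqrt_div hN0.le, Real.sqrt_mul hq0.le]
            have f1 : Real.sqrt N ≠ 0 := (Real.sqrt_pos.mpr hN0).ne'
            have f2 : Real.sqrt q ≠ 0 := (Real.sqrt_pos.mpr hq0).ne'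
            have f3 : Real.sqrt N * Real.sqrt N = N := Real.mul_self_sqrt hN0.le
            rw [div_div, div_eq_iff (by positivity)]
            have f4 : Real.sqrt 2 * (Real.sqrt q * Real.sqrt N) * (Real.sqrt N / (Real.sqrt q * Real.sqrt 2)) =
                Real.sqrt N * Real.sqrt N := by
              field_simp
            rw [f4, f3]
          have e4 : Real.sqrt 2 * Real.sqrt (q * N) ≤ 2 * Real.sqrt (q * N) :=
            mul_le_mul_of_nonneg_right hs2' hP3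
          linarith
      have h5 : (N : ℝ) ^ ((4 : ℝ) / 5 - d2) ≤ (N : ℝ) ^ ((4 : ℝ) / 5 - d) :=
        Real.rpow_le_rpow_of_exponent_le hN1 (by linarith)
      have h6 : (N : ℝ) / Real.sqrt (QQ N x c r) + (N : ℝ) ^ ((4 : ℝ) / 5 - d2) ≤ 2 * Y := by
        rw [hY]
        linarith
      have h7 : C2 * (N : ℝ) ^ ε * ((N : ℝ) / Real.sqrt (QQ N x c r) + (N : ℝ) ^ ((4 : ℝ) / 5 - d2)) ≤
          C2 * (N : ℝ) ^ ε * (2 * Y) := mul_le_mul_of_nonneg_left h6 (by positivity)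
      have h9 : 0 ≤ (2 * C1 + B) * ((N : ℝ) ^ ε * Y) := by positivity
      calc ‖FM N x‖ ≤ C2 * (N : ℝ) ^ ε * (2 * Y) + (2 * C1 + B) * ((N : ℝ) ^ ε * Y) := by
            linarith
        _ = (2 * C1 + 2 * C2 + B) * (N : ℝ) ^ ε * Y := by ring

end Pool.Agent.Helper25.VF
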