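import Pool.Agent.Helper25.VF.Clean

/-!
# Assembly with explicit parameters

`VS k0 k1 c` is the bound `N^(c + ε)` at the fractions `a/b` with `N^k0 ≤ b ≤ N^k1`, `N |x - a/b| ≤ 1`, and `PS k c` the bound
`N^ε (N/√Q + N^c)` for `Q = QQ N x a q ≤ N^k`. Together they give Vaughan's inequality with the exponent `c`, as soon as
`k0 < k` and `1 - k < k1`.
-/

set_option autoImplicit false

namespace Pool.Agent.Helper25.VF

open Pool.Helper19.V4 Pool.Helper19.V5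

/-- The bound at the middle denominators. -/
def VS (k0 k1 c : ℝ) : Prop := ∀ ε : ℝ, 0 < ε → ∃ C : ℝ, 0 < C ∧ ∀ N : ℕ, 1 ≤ N → ∀ (x : ℝ) (a : ℤ) (q : ℕ), 1 ≤ q →
  IsCoprime a (q : ℤ) → (N : ℝ) ^ k0 ≤ q → (q : ℝ) ≤ (N : ℝ) ^ k1 → N * |x - a / q| ≤ 1 →
    ‖FM N x‖ ≤ C * (N : ℝ) ^ ε * (N : ℝ) ^ c

/-- The bound for small `QQ`. -/
def PS (k c : ℝ) : Prop := ∀ ε : ℝ, 0 < ε → ∃ C : ℝ, 0 < C ∧ ∀ N : ℕ, 1 ≤ N → ∀ (x : ℝ) (a : ℤ) (q : ℕ), 1 ≤ q →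
  IsCoprime a (q : ℤ) → QQ N x a q ≤ (N : ℝ) ^ k →
    ‖FM N x‖ ≤ C * (N : ℝ) ^ ε * ((N : ℝ) / Real.sqrt (QQ N x a q) + (N : ℝ) ^ c)

/-- a positive power is eventually at least `2` -/
lemma pow_ge_two {e : ℝ} (he : 0 < e) : ∃ B : ℝ, 1 ≤ B ∧ ∀ y : ℝ, B ≤ y → 2 ≤ y ^ e := by
  refine ⟨max 1 (2 ^ (1 / e)), le_max_left _ _, fun y hy => ?_⟩
  have h1 : (2 : ℝ) ^ (1 / e) ≤ y := (le_max_right _ _).trans hy
  have h2 : ((2 : ℝ) ^ (1 / e)) ^ e = 2 := by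
    rw [← Real.rpow_mul (by norm_num), one_div, inv_mul_cancel₀ he.ne', Real.rpow_one]
  rw [← h2]
  exact Real.rpow_le_rpow (by positivity) h1 he.le

/-- the comparison of the bounds at two fractions -/
lemma sqrt_cmp {N x : ℝ} (hN : 0 < N) {a c : ℤ} {q r : ℕ} (hq : 1 ≤ q) (hr : 1 ≤ r)
    (haq : IsCoprime a (q : ℤ)) (hcr : IsCoprime c (r : ℤ)) (hx : |x - a / q| ≤ 1 / (q : ℝ) ^ 2) :
    N / Real.sqrt (QQ N x c r) ≤ 2 * (N / Real.sqrt q + Real.sqrt (q * N)) := by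
  have hq0 : (0 : ℝ) < q := by exact_mod_cast hq
  have hs2' : Real.sqrt 2 ≤ 2 := by
    rw [Real.sqrt_le_left (by norm_num)]
    norm_num
  have hs20 : 0 < Real.sqrt 2 := Real.sqrt_pos.mpr (by norm_num)
  have hP1 : 0 ≤ N / Real.sqrt q := by positivity
  have hP3 : 0 ≤ Real.sqrt (q * N) := Real.sqrt_nonneg _
  rcases QQ_lower hN hq hr haq hcr hx with h | h
  · have e1 : Real.sqrt (q / 2) ≤ Real.sqrt (QQ N x c r) := Real.sqrt_le_sqrt h
    have e2 : N / Real.sqrt (QQ N x c r) ≤ N / Real.sqrt (q / 2) :=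
      div_le_div_of_nonneg_left hN.le (Real.sqrt_pos.mpr (by positivity)) e1
    have e3 : N / Real.sqrt (q / 2) = Real.sqrt 2 * (N / Real.sqrt q) := by
      rw [Real.sqrt_div hq0.le]
      field_simp
    have e4 : Real.sqrt 2 * (N / Real.sqrt q) ≤ 2 * (N / Real.sqrt q) :=
      mul_le_mul_of_nonneg_right hs2' hP1
    linarith
  · have e1 : Real.sqrt (N / q / 2) ≤ Real.sqrt (QQ N x c r) := Real.sqrt_le_sqrt h
    have e2 : N / Real.sqrt (QQ N x c r) ≤ N / Real.sqrt (N / q / 2) :=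
      div_le_div_of_nonneg_left hN.le (Real.sqrt_pos.mpr (by positivity)) e1
    have e3 : N / Real.sqrt (N / q / 2) = Real.sqrt 2 * Real.sqrt (q * N) := by
      rw [Real.sqrt_div (by positivity), Real.sqrt_div hN.le, Real.sqrt_mul hq0.le]
      have f1 : Real.sqrt N ≠ 0 := (Real.sqrt_pos.mpr hN).ne'
      have f2 : Real.sqrt q ≠ 0 := (Real.sqrt_pos.mpr hq0).ne'
      have f3 : Real.sqrt N * Real.sqrt N = N := Real.mul_self_sqrt hN.le
      rw [div_div, div_eq_iff (by positivity)]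
      have f4 : Real.sqrt 2 * (Real.sqrt q * Real.sqrt N) * (Real.sqrt N / (Real.sqrt q * Real.sqrt 2)) =
          Real.sqrt N * Real.sqrt N := by
        field_simp
      rw [f4, f3]
    have e4 : Real.sqrt 2 * Real.sqrt (q * N) ≤ 2 * Real.sqrt (q * N) :=
      mul_le_mul_of_nonneg_right hs2' hP3
    linarith

/-- **Vaughan's inequality for the Moebius function with the exponent `c`.** -/
theorem explicit {k0 k1 k c : ℝ} (h0 : k0 < k) (h1 : 1 - k < k1) (hk : 0 < k) (hk1 : k < 1) (hc : 0 ≤ c)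
    (hV : VS k0 k1 c) (hP : PS k c) :
    ∀ ε : ℝ, 0 < ε → ∃ C : ℝ, 0 < C ∧ ∀ N : ℕ, 1 ≤ N →
    ∀ (x : ℝ) (a : ℤ) (q : ℕ), 1 ≤ q → IsCoprime a (q : ℤ) → |x - a / q| ≤ 1 / (q : ℝ) ^ 2 →
      ‖FM N x‖ ≤ C * (N : ℝ) ^ ε * ((N : ℝ) / Real.sqrt q + (N : ℝ) ^ c + Real.sqrt (q * N)) := by
  intro ε hε
  obtain ⟨C1, hC1, hV⟩ := hV ε hε
  obtain ⟨C2, hC2, hP⟩ := hP ε hε
  obtain ⟨B1, hB11, hB1⟩ := pow_ge_two (sub_pos.mpr h0)
  obtain ⟨B2, hB21, hB2⟩ := pow_ge_two (show 0 < k1 - (1 - k) by linarith)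
  obtain ⟨B, hB0, hBB1, hBB2⟩ : ∃ B : ℝ, 0 < B ∧ B1 ≤ B ∧ B2 ≤ B :=
    ⟨max B1 B2, lt_max_of_lt_left (by linarith), le_max_left _ _, le_max_right _ _⟩
  refine ⟨C1 + 2 * C2 + B, by positivity, fun N hN x a q hq haq hx => ?_⟩
  have hN1 : (1 : ℝ) ≤ N := by exact_mod_cast hN
  have hN0 : (0 : ℝ) < N := by linarith
  have hq0 : (0 : ℝ) < q := by exact_mod_cast hq
  have hNε : 1 ≤ (N : ℝ) ^ ε := Real.one_le_rpow hN1 hε.le
  have hP1 : 0 ≤ (N : ℝ) / Real.sqrt q := by positivity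
  have hP2 : 1 ≤ (N : ℝ) ^ c := Real.one_le_rpow hN1 hc
  have hP3 : 0 ≤ Real.sqrt (q * N) := Real.sqrt_nonneg _
  obtain ⟨Y, hY⟩ : ∃ Y : ℝ, Y = (N : ℝ) / Real.sqrt q + (N : ℝ) ^ c + Real.sqrt (q * N) := ⟨_, rfl⟩
  rw [← hY]
  have hY1 : 1 ≤ Y := by rw [hY]; linarith
  have hYP : (N : ℝ) ^ c ≤ Y := by rw [hY]; linarith
  have hεY : 1 ≤ (N : ℝ) ^ ε * Y := one_le_mul_of_one_le_of_one_le hNε hY1
  rcases le_or_gt (N : ℝ) B with hsmall | hlarge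
  · have h3 := FM_triv N x
    have h4 : B * 1 ≤ B * ((N : ℝ) ^ ε * Y) := mul_le_mul_of_nonneg_left hεY hB0.le
    have h5 : 0 ≤ (C1 + 2 * C2) * ((N : ℝ) ^ ε * Y) := by positivity
    calc ‖FM N x‖ ≤ (C1 + 2 * C2) * ((N : ℝ) ^ ε * Y) + B * ((N : ℝ) ^ ε * Y) := by
          linarith
      _ = (C1 + 2 * C2 + B) * (N : ℝ) ^ ε * Y := by ring
  · have hp1 : 2 * (N : ℝ) ^ k0 ≤ (N : ℝ) ^ k := by
      have e1 : (N : ℝ) ^ k = (N : ℝ) ^ (k - k0) * (N : ℝ) ^ k0 := by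
        rw [← Real.rpow_add hN0]
        congr 1
        ring
      rw [e1]
      exact mul_le_mul_of_nonneg_right (hB1 N (hBB1.trans hlarge.le)) (by positivity)
    have hp2 : 2 * (N : ℝ) ^ (1 - k) ≤ (N : ℝ) ^ k1 := by
      have e1 : (N : ℝ) ^ k1 = (N : ℝ) ^ (k1 - (1 - k)) * (N : ℝ) ^ (1 - k) := by
        rw [← Real.rpow_add hN0]
        congr 1
        ring
      rw [e1]
      exact mul_le_mul_of_nonneg_right (hB2 N (hBB2.trans hlarge.le)) (by positivity)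
    -- the approximation
    obtain ⟨D, hD⟩ : ∃ D : ℝ, D = 2 * (N : ℝ) ^ (1 - k) := ⟨_, rfl⟩
    have hD1 : 1 ≤ D := by
      have : 1 ≤ (N : ℝ) ^ (1 - k) := Real.one_le_rpow hN1 (by linarith)
      rw [hD]
      linarith
    have hD0 : 0 < D := by linarith
    have hn : 0 < ⌊D⌋₊ := Nat.floor_pos.mpr hD1
    obtain ⟨s, hs1, hs2⟩ := Real.exists_rat_abs_sub_le_and_den_le x hn
    have hsden : (0 : ℝ) < s.den := by exact_mod_cast s.den_pos
    have hsD : (s.den : ℝ) ≤ D := le_trans (by exact_mod_cast hs2) (Nat.floor_le hD0.le)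
    have hfl : D < (⌊D⌋₊ : ℝ) + 1 := Nat.lt_floor_add_one D
    have hscast : ((s : ℚ) : ℝ) = (s.num : ℝ) / (s.den : ℝ) := by
      exact_mod_cast congrArg (fun t : ℚ => (t : ℝ)) (Rat.num_div_den s).symm
    rw [hscast] at hs1
    have hs3 : |x - (s.num : ℝ) / (s.den : ℝ)| ≤ 1 / (D * s.den) := by
      refine le_trans hs1 (one_div_le_one_div_of_le (by positivity) ?_)
      exact mul_le_mul_of_nonneg_right hfl.le hsden.le
    have hcop : IsCoprime s.num (s.den : ℤ) := by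
      rw [Int.isCoprime_iff_gcd_eq_one]
      have := s.reduced
      rwa [Nat.coprime_iff_gcd_eq_one] at this
    obtain ⟨b, r, hb, hr⟩ : ∃ (b : ℤ) (r : ℕ), b = s.num ∧ r = s.den := ⟨_, _, rfl, rfl⟩
    rw [← hb, ← hr] at hs3 hcop
    rw [← hr] at hsden hsD
    have hr1 : 1 ≤ r := by rw [hr]; exact s.den_pos
    have hND : (N : ℝ) / D = (N : ℝ) ^ k / 2 := by
      have e1 : (N : ℝ) = (N : ℝ) ^ k * (N : ℝ) ^ (1 - k) := by
        rw [← Real.rpow_add hN0]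
        have : k + (1 - k) = 1 := by ring
        rw [this, Real.rpow_one]
      have e2 : 0 < (N : ℝ) ^ (1 - k) := by positivity
      rw [hD, div_eq_iff (by positivity)]
      calc (N : ℝ) = (N : ℝ) ^ k * (N : ℝ) ^ (1 - k) := e1
        _ = (N : ℝ) ^ k / 2 * (2 * (N : ℝ) ^ (1 - k)) := by ring
    have hs4 : N * |x - (b : ℝ) / r| * r ≤ (N : ℝ) ^ k / 2 := by
      have e1 : |x - (b : ℝ) / r| * (D * r) ≤ 1 := by
        have := mul_le_mul_of_nonneg_right hs3 (by positivity : 0 ≤ D * (r : ℝ))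
        rwa [one_div, inv_mul_cancel₀ (by positivity)] at this
      rw [← hND, le_div_iff₀ hD0]
      nlinarith
    rcases le_or_gt ((N : ℝ) ^ k / 2) r with hbig | hsm
    · -- large denominators
      have h4 : N * |x - (b : ℝ) / r| ≤ 1 := by
        by_contra hcon
        push Not at hcon
        nlinarith
      have h3 := hV N hN x b r hr1 hcop (by linarith) (by rw [hD] at hsD; linarith) h4
      have h8 : C1 * (N : ℝ) ^ ε * (N : ℝ) ^ c ≤ C1 * (N : ℝ) ^ ε * Y :=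
        mul_le_mul_of_nonneg_left hYP (by positivity)
      have h9 : 0 ≤ (2 * C2 + B) * ((N : ℝ) ^ ε * Y) := by positivity
      calc ‖FM N x‖ ≤ C1 * (N : ℝ) ^ ε * Y + (2 * C2 + B) * ((N : ℝ) ^ ε * Y) := by
            linarith
        _ = (C1 + 2 * C2 + B) * (N : ℝ) ^ ε * Y := by ring
    · -- small denominators
      have hQdef : QQ N x b r = r * (1 + N * |x - b / r|) := rfl
      have hQle : QQ N x b r ≤ (N : ℝ) ^ k := by
        rw [hQdef]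
        nlinarith
      have h3 := hP N hN x b r hr1 hcop hQle
      have h4 := sqrt_cmp hN0 hq hr1 haq hcop hx
      have h6 : (N : ℝ) / Real.sqrt (QQ N x b r) + (N : ℝ) ^ c ≤ 2 * Y := by
        rw [hY]
        linarith
      have h7 : C2 * (N : ℝ) ^ ε * ((N : ℝ) / Real.sqrt (QQ N x b r) + (N : ℝ) ^ c) ≤
          C2 * (N : ℝ) ^ ε * (2 * Y) := mul_le_mul_of_nonneg_left h6 (by positivity)
      have h9 : 0 ≤ (C1 + B) * ((N : ℝ) ^ ε * Y) := by positivity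
      calc ‖FM N x‖ ≤ C2 * (N : ℝ) ^ ε * (2 * Y) + (C1 + B) * ((N : ℝ) ^ ε * Y) := by
            linarith
        _ = (C1 + 2 * C2 + B) * (N : ℝ) ^ ε * Y := by ring

end Pool.Agent.Helper25.VF
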