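import Pool.Agent.Helper25.VF.Clean
import Pool.Agent.Helper19.V5.RegA
import Pool.Agent.Helper19.V5.FiveZ

/-!
# Vaughan's inequality with `4/5 - d` for the Moebius function, and numbers of irrationality exponent `< 5/2`
-/

set_option autoImplicit false

namespace Pool.Agent.Helper25.VF

open Pool.Helper19.V4 Pool.Helper19.V5

theorem reg : REG := by
  intro c0 hc0
  obtain ⟨d, hd, h⟩ := regA (κ := 0) (κ' := 0) (Or.inl le_rfl) five0 hc0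
  refine ⟨d, hd, fun ε hε => ?_⟩
  obtain ⟨C, hC, h1⟩ := h ε hε
  refine ⟨C, hC, fun N hN x a q hq haq hQ => h1 N hN x a q hq haq ?_ hQ⟩
  rw [Real.rpow_zero]
  exact QQ_pos (by positivity) hq

/-- **Vaughan's inequality for the Moebius function with an exponent below `4/5`.** -/
theorem vfull : ∃ d : ℝ, 0 < d ∧ ∀ ε : ℝ, 0 < ε → ∃ C : ℝ, 0 < C ∧ ∀ N : ℕ, 1 ≤ N →
    ∀ (x : ℝ) (a : ℤ) (q : ℕ), 1 ≤ q → IsCoprime a (q : ℤ) → |x - a / q| ≤ 1 / (q : ℝ) ^ 2 →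
      ‖FM N x‖ ≤ C * (N : ℝ) ^ ε * ((N : ℝ) / Real.sqrt q + (N : ℝ) ^ ((4 : ℝ) / 5 - d) +
        Real.sqrt (q * N)) := clean reg

/-- The exponent is below `4/5` at every number of irrationality exponent less than `5/2`. -/
theorem irr (m : ℝ) (hm : m < 5 / 2) : ∃ d : ℝ, 0 < d ∧ ∀ c : ℝ, 0 < c → ∃ C : ℝ, ∀ x : ℝ,
    (∀ (a : ℤ) (q : ℕ), 1 ≤ q → c / (q : ℝ) ^ m ≤ |x - a / q|) → ∀ N : ℕ, 1 ≤ N →
      ‖FM N x‖ ≤ C * (N : ℝ) ^ ((4 : ℝ) / 5 - d) := by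
  obtain ⟨d0, hd0, hV⟩ := vfull
  obtain ⟨ν, hν, hν1, hνm⟩ : ∃ ν : ℝ, 1 ≤ ν ∧ ν < 3 / 2 ∧ m ≤ ν + 1 :=
    ⟨max (m - 1) 1, le_max_right _ _, max_lt (by linarith) (by norm_num), by
      have := le_max_left (m - 1) 1
      linarith⟩
  obtain ⟨h, hh⟩ : ∃ h : ℝ, h = 4 / 25 * (3 / 2 - ν) := ⟨_, rfl⟩
  have hh0 : 0 < h := by rw [hh]; nlinarith
  have hh1 : h ≤ 2 / 25 := by rw [hh]; nlinarith
  have hh2 : ν * (2 / 5 + h) ≤ 3 / 5 - h := by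
    rw [hh]
    nlinarith
  obtain ⟨d, hd, hdd0, hdh⟩ : ∃ d : ℝ, 0 < d ∧ 2 * d ≤ d0 ∧ 2 * d ≤ h / 2 :=
    ⟨min (d0 / 2) (h / 4), lt_min (by positivity) (by positivity), by
      have := min_le_left (d0 / 2) (h / 4)
      linarith, by
      have := min_le_right (d0 / 2) (h / 4)
      linarith⟩
  refine ⟨d, hd, fun c hc => ?_⟩
  obtain ⟨C, hC, hV⟩ := hV d hd
  obtain ⟨s0, hs0, hs0'⟩ : ∃ s0 : ℝ, 0 < s0 ∧ s0 = Real.sqrt (c ^ (1 / ν)) :=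
    ⟨_, Real.sqrt_pos.mpr (Real.rpow_pos_of_pos hc _), rfl⟩
  refine ⟨C * (1 / s0 + 2), fun x hx N hN => ?_⟩
  have hN1 : (1 : ℝ) ≤ N := by exact_mod_cast hN
  have hN0 : (0 : ℝ) < N := by linarith
  -- the approximation
  obtain ⟨D, hD⟩ : ∃ D : ℝ, D = (N : ℝ) ^ (3 / 5 - h) := ⟨_, rfl⟩
  have hD1 : 1 ≤ D := by rw [hD]; exact Real.one_le_rpow hN1 (by linarith)
  have hD0 : 0 < D := by linarith
  have hn : 0 < ⌊D⌋₊ := Nat.floor_pos.mpr hD1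
  obtain ⟨s, hs1, hs2⟩ := Real.exists_rat_abs_sub_le_and_den_le x hn
  have hsden : (0 : ℝ) < s.den := by exact_mod_cast s.den_pos
  have hsD : (s.den : ℝ) ≤ D := le_trans (by exact_mod_cast hs2) (Nat.floor_le hD0.le)
  have hfl : D < (⌊D⌋₊ : ℝ) + 1 := Nat.lt_floor_add_one D
  have hscast : ((s : ℚ) : ℝ) = (s.num : ℝ) / (s.den : ℝ) := by
    exact_mod_cast congrArg (fun t : ℚ => (t : ℝ)) (Rat.num_div_den s).symm
  rw [hscast] at hs1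
  have hs3 : |x - (s.num : ℝ) / (s.den : ℝ)| ≤ 1 / (D * s.den) := by
    refine le_trans hs1 (one_div_le_one_div_of_le (by positivity) ?_)
    exact mul_le_mul_of_nonneg_right hfl.le hsden.le
  have hcop : IsCoprime s.num (s.den : ℤ) := by
    rw [Int.isCoprime_iff_gcd_eq_one]
    have := s.reduced
    rwa [Nat.coprime_iff_gcd_eq_one] at this
  obtain ⟨a, r, hc', hr⟩ : ∃ (a : ℤ) (r : ℕ), a = s.num ∧ r = s.den := ⟨_, _, rfl, rfl⟩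
  rw [← hc', ← hr] at hs3 hcop
  rw [← hr] at hsden hsD
  have hr1 : 1 ≤ r := by rw [hr]; exact s.den_pos
  have hr1' : (1 : ℝ) ≤ r := by exact_mod_cast hr1
  have hs4 : |x - (a : ℝ) / r| ≤ 1 / (r : ℝ) ^ 2 := by
    refine le_trans hs3 (one_div_le_one_div_of_le (by positivity) ?_)
    rw [sq]
    exact mul_le_mul_of_nonneg_right hsD hsden.le
  have h1 := hV N hN x a r hr1 hcop hs4
  -- the denominator is large
  have h2 : c * D ≤ (r : ℝ) ^ ν := by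
    have e1 := (hx a r hr1).trans hs3
    have e2 : (r : ℝ) ^ m ≤ (r : ℝ) ^ ν * r := by
      have : (r : ℝ) ^ ν * r = (r : ℝ) ^ (ν + 1) := by
        rw [Real.rpow_add hsden, Real.rpow_one]
      rw [this]
      exact Real.rpow_le_rpow_of_exponent_le hr1' hνm
    have e3 : 0 < (r : ℝ) ^ m := Real.rpow_pos_of_pos hsden _
    rw [div_le_div_iff₀ e3 (by positivity)] at e1
    have e4 : c * (D * r) ≤ (r : ℝ) ^ ν * r := by linarith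
    have e5 : c * D * r ≤ (r : ℝ) ^ ν * r := by linarith
    exact le_of_mul_le_mul_right e5 hsden
  have h3 : c ^ (1 / ν) * (N : ℝ) ^ (2 / 5 + h) ≤ r := by
    have hν0 : 0 < ν := by linarith
    have e1 : (c * D) ^ (1 / ν) ≤ ((r : ℝ) ^ ν) ^ (1 / ν) :=
      Real.rpow_le_rpow (by positivity) h2 (by positivity)
    have e2 : ((r : ℝ) ^ ν) ^ (1 / ν) = r := by
      rw [← Real.rpow_mul hsden.le, mul_one_div_cancel hν0.ne', Real.rpow_one]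
    rw [e2, Real.mul_rpow hc.le hD0.le] at e1
    have e3 : (N : ℝ) ^ (2 / 5 + h) ≤ D ^ (1 / ν) := by
      rw [hD, ← Real.rpow_mul hN0.le]
      apply Real.rpow_le_rpow_of_exponent_le hN1
      rw [mul_one_div, le_div_iff₀ hν0]
      linarith
    have e4 : 0 < c ^ (1 / ν) := Real.rpow_pos_of_pos hc _
    exact (mul_le_mul_of_nonneg_left e3 e4.le).trans e1
  have h4 : (N : ℝ) / Real.sqrt r ≤ 1 / s0 * (N : ℝ) ^ (4 / 5 - h / 2) := by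
    have e1 : s0 * (N : ℝ) ^ (1 / 5 + h / 2) ≤ Real.sqrt r := by
      have e2 : s0 * (N : ℝ) ^ (1 / 5 + h / 2) = Real.sqrt (c ^ (1 / ν) * (N : ℝ) ^ (2 / 5 + h)) := by
        rw [Real.sqrt_mul (Real.rpow_nonneg hc.le _), ← hs0']
        congr 1
        rw [Real.sqrt_eq_rpow, ← Real.rpow_mul hN0.le]
        congr 1
        ring
      rw [e2]
      exact Real.sqrt_le_sqrt h3
    have e3 : 0 < (N : ℝ) ^ (1 / 5 + h / 2) := Real.rpow_pos_of_pos hN0 _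
    have e4 : (N : ℝ) ^ (4 / 5 - h / 2) * (N : ℝ) ^ (1 / 5 + h / 2) = N := by
      rw [← Real.rpow_add hN0]
      have : (4 : ℝ) / 5 - h / 2 + (1 / 5 + h / 2) = 1 := by ring
      rw [this, Real.rpow_one]
    have e5 : 0 < Real.sqrt r := Real.sqrt_pos.mpr hsden
    rw [div_le_iff₀ e5]
    have e6 : 0 ≤ 1 / s0 * (N : ℝ) ^ (4 / 5 - h / 2) := by positivity
    calc (N : ℝ) = 1 / s0 * (N : ℝ) ^ (4 / 5 - h / 2) * (s0 * (N : ℝ) ^ (1 / 5 + h / 2)) := by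
          have e7 : 1 / s0 * (N : ℝ) ^ (4 / 5 - h / 2) * (s0 * (N : ℝ) ^ (1 / 5 + h / 2)) =
              (1 / s0 * s0) * ((N : ℝ) ^ (4 / 5 - h / 2) * (N : ℝ) ^ (1 / 5 + h / 2)) := by ring
          rw [e7, e4, one_div, inv_mul_cancel₀ hs0.ne', one_mul]
      _ ≤ 1 / s0 * (N : ℝ) ^ (4 / 5 - h / 2) * Real.sqrt r := mul_le_mul_of_nonneg_left e1 e6
  have h5 : Real.sqrt (r * N) ≤ (N : ℝ) ^ (4 / 5 - h / 2) := by
    have e1 : (r : ℝ) * N ≤ (N : ℝ) ^ (8 / 5 - h) := by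
      have e2 : (N : ℝ) ^ (8 / 5 - h) = (N : ℝ) ^ (3 / 5 - h) * N := by
        have : (8 : ℝ) / 5 - h = (3 / 5 - h) + 1 := by ring
        rw [this, Real.rpow_add hN0, Real.rpow_one]
      rw [e2, ← hD]
      exact mul_le_mul_of_nonneg_right hsD hN0.le
    refine (Real.sqrt_le_sqrt e1).trans (le_of_eq ?_)
    rw [Real.sqrt_eq_rpow, ← Real.rpow_mul hN0.le]
    congr 1
    ring
  have h6 : (N : ℝ) ^ (4 / 5 - h / 2) ≤ (N : ℝ) ^ (4 / 5 - 2 * d) :=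
    Real.rpow_le_rpow_of_exponent_le hN1 (by linarith)
  have h7 : (N : ℝ) ^ ((4 : ℝ) / 5 - d0) ≤ (N : ℝ) ^ (4 / 5 - 2 * d) :=
    Real.rpow_le_rpow_of_exponent_le hN1 (by linarith)
  have h8 : (N : ℝ) ^ ((4 : ℝ) / 5 - d) = (N : ℝ) ^ d * (N : ℝ) ^ (4 / 5 - 2 * d) := by
    rw [← Real.rpow_add hN0]
    congr 1
    ring
  have h9 : (N : ℝ) / Real.sqrt r + (N : ℝ) ^ ((4 : ℝ) / 5 - d0) + Real.sqrt (r * N) ≤
      (1 / s0 + 2) * (N : ℝ) ^ (4 / 5 - 2 * d) := by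
    have e1 : 1 / s0 * (N : ℝ) ^ (4 / 5 - h / 2) ≤ 1 / s0 * (N : ℝ) ^ (4 / 5 - 2 * d) :=
      mul_le_mul_of_nonneg_left h6 (by positivity)
    linarith
  calc ‖FM N x‖ ≤ C * (N : ℝ) ^ d * ((N : ℝ) / Real.sqrt r + (N : ℝ) ^ ((4 : ℝ) / 5 - d0) +
        Real.sqrt (r * N)) := h1
    _ ≤ C * (N : ℝ) ^ d * ((1 / s0 + 2) * (N : ℝ) ^ (4 / 5 - 2 * d)) :=
        mul_le_mul_of_nonneg_left h9 (by positivity)
    _ = C * (1 / s0 + 2) * (N : ℝ) ^ ((4 : ℝ) / 5 - d) := by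
        rw [h8]
        ring

end Pool.Agent.Helper25.VF
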