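import Pool.Agent.Helper25.VF.WPlus
import Pool.Agent.Helper88.WP.Main0
import Pool.Agent.Helper88.WP.ConvR
import Pool.Agent.Helper5.WB.LVR

/-!
# Theorem W+
-/

set_option autoImplicit false

namespace Pool.Agent.Helper25.WM

open Finset Pool.Helper19.V4 Pool.Helper19.WZ

theorem ingh {a : ℝ} (ha : 1 / 2 ≤ a) (ha1 : a ≤ 7 / 10) (hZ : ZF a) :
    Sup (3 / 4 + (1 - a) * (2 * a - 1) / (2 * (2 - a))) := by
  intro ε hε
  obtain ⟨C, _, h⟩ := Pool.Agent.Helper88.WP.wplus_of ha (by linarith)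
    (Pool.Helper5.WB.lvr (by linarith) (fun g h1 h2 => by
      have h0 : 0 ≤ g := by linarith
      unfold Pool.Agent.Helper88.WP.rI
      constructor
      · positivity
      · rw [div_le_iff₀ (by linarith)]
        linarith) Pool.Helper5.WB.box (Pool.Agent.Helper88.WP.fgr (by linarith))
      (Pool.Agent.Helper88.WP.fsrI (by linarith))) hZ ε hε
  exact ⟨C, fun N hN x => h N hN x⟩

/-- Theorem W+. -/
theorem wplus {a : ℝ} (ha : 1 / 2 ≤ a) :
    (ZF a → Bd (hfun a)) ∧ (Bd a → ZF a) :=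
  ⟨(wplus_of (fun _ h1 h2 hZ => ingh h1 h2 hZ) ha).1, fun h => Pool.Agent.Helper88.WP.zf_of_B ha h⟩

end Pool.Agent.Helper25.WM
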