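import Pool.Agent.Helper25.VF.WMerge

/-!
# The final form of theorem W+
-/

set_option autoImplicit false

namespace Pool.Agent.Helper25.WM

open Finset Pool.Helper19.V4 Pool.Helper19.WZ

/-- the exponent obtained from a zero free half plane `Re s > a` -/
noncomputable def hfun (a : ℝ) : ℝ :=
  if a ≤ 7 / 10 then 3 / 4 + (1 - a) * (2 * a - 1) / (2 * (2 - a)) else max a (43 / 54)

lemma hfun_ge {a : ℝ} (ha : 1 / 2 ≤ a) : 3 / 4 ≤ hfun a := by
  unfold hfun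
  split_ifs with h
  · have : 0 ≤ (1 - a) * (2 * a - 1) / (2 * (2 - a)) :=
      div_nonneg (mul_nonneg (by linarith) (by linarith)) (by linarith)
    linarith
  · exact le_trans (by norm_num) (le_max_right _ _)

/-- the bound with exponent `c` -/
def Bd (c : ℝ) : Prop := ∀ ε : ℝ, 0 < ε → ∃ C : ℝ, ∀ (N : ℕ) (x : ℝ) (b : ℤ) (q : ℕ), 1 ≤ N → 1 ≤ q →
  IsCoprime b (q : ℤ) → |x - b / q| ≤ 1 / (q : ℝ) ^ 2 → ‖FM N x‖ ≤ C * (N : ℝ) ^ ε *
    (min (N / Real.sqrt q + (N : ℝ) ^ (43 / 54 : ℝ)) ((N : ℝ) ^ c) + Real.sqrt (q * N))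

/-- the supremum norm -/
def Sup (c : ℝ) : Prop := ∀ ε : ℝ, 0 < ε → ∃ C : ℝ, ∀ N : ℕ, 1 ≤ N → ∀ x : ℝ, ‖FM N x‖ ≤ C * (N : ℝ) ^ (c + ε)

lemma bd_of_sup {c : ℝ} (h : Sup c) : Bd c := by
  intro ε hε
  obtain ⟨C1, hC1, h1⟩ := Pool.Helper19.VE.vform ε hε
  obtain ⟨C2, h2⟩ := h ε hε
  refine ⟨C1 + |C2|, fun N x b q hN hq hbq hx => ?_⟩
  have hN1 : (1 : ℝ) ≤ N := by exact_mod_cast hN
  have hN0 : (0 : ℝ) < N := by linarith
  have e1 := h1 N hN x b q hq hbq hx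
  have e2 := h2 N hN x
  have hNe : 0 < (N : ℝ) ^ ε := by positivity
  have h7 : 0 ≤ (N : ℝ) ^ (43 / 54 : ℝ) := by positivity
  have h8 : 0 ≤ Real.sqrt (q * N) := Real.sqrt_nonneg _
  have h9 : 0 ≤ (N : ℝ) ^ c := by positivity
  have h10 : 0 ≤ (N : ℝ) / Real.sqrt q := by positivity
  have h11 := abs_nonneg C2
  rcases min_cases ((N : ℝ) / Real.sqrt q + (N : ℝ) ^ (43 / 54 : ℝ)) ((N : ℝ) ^ c) with ⟨hm, _⟩ | ⟨hm, _⟩
  · rw [hm]
    refine e1.trans ?_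
    apply mul_le_mul_of_nonneg_right _ (by positivity)
    apply mul_le_mul_of_nonneg_right _ hNe.le
    linarith
  · rw [hm]
    rw [Real.rpow_add hN0] at e2
    calc ‖FM N x‖ ≤ C2 * ((N : ℝ) ^ c * (N : ℝ) ^ ε) := e2
      _ ≤ |C2| * ((N : ℝ) ^ c * (N : ℝ) ^ ε) := mul_le_mul_of_nonneg_right (le_abs_self C2) (by positivity)
      _ = |C2| * (N : ℝ) ^ ε * ((N : ℝ) ^ c) := by ring
      _ ≤ (C1 + |C2|) * (N : ℝ) ^ ε * ((N : ℝ) ^ c + Real.sqrt (q * N)) := by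
          apply mul_le_mul _ (by linarith) h9 (by positivity)
          apply mul_le_mul_of_nonneg_right _ hNe.le
          linarith

/-- from the inequality at one good denominator to the supremum norm -/
lemma sup_of_bd {c : ℝ} (hc : 3 / 4 ≤ c) (h : Bd c) : Sup c := by
  intro ε hε
  obtain ⟨C, hC⟩ := h ε hε
  refine ⟨2 * |C|, fun N hN x => ?_⟩
  have hN1 : (1 : ℝ) ≤ N := by exact_mod_cast hN
  have hN0 : (0 : ℝ) < N := by linarith
  obtain ⟨n, hn⟩ : ∃ n : ℕ, n = Nat.sqrt N := ⟨_, rfl⟩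
  have hn0 : 0 < n := by
    rw [hn]
    exact Nat.sqrt_pos.2 hN
  obtain ⟨r, hr1, hr2⟩ := Real.exists_rat_abs_sub_le_and_den_le x hn0
  have hden : (0 : ℝ) < r.den := by exact_mod_cast r.pos
  have hdn : (r.den : ℝ) ≤ n := by exact_mod_cast hr2
  have hnN : (n : ℝ) ^ 2 ≤ N := by
    have : n ^ 2 ≤ N := by
      rw [hn]
      exact Nat.sqrt_le' N
    exact_mod_cast this
  have hcop : IsCoprime r.num (r.den : ℤ) := by
    rw [Int.isCoprime_iff_gcd_eq_one]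
    have := r.reduced
    rw [Nat.Coprime] at this
    rw [Int.gcd, Int.natAbs_natCast]
    exact this
  have hx : |x - (r.num : ℝ) / (r.den : ℝ)| ≤ 1 / ((r.den : ℕ) : ℝ) ^ 2 := by
    have e1 : (r : ℝ) = (r.num : ℝ) / (r.den : ℝ) := by exact_mod_cast (Rat.num_div_den r).symm
    rw [← e1]
    refine hr1.trans ?_
    rw [div_le_div_iff₀ (by positivity) (by positivity)]
    nlinarith
  have h1 := hC N x r.num r.den hN r.pos hcop hx
  have h2 : min ((N : ℝ) / Real.sqrt r.den + (N : ℝ) ^ (43 / 54 : ℝ)) ((N : ℝ) ^ c) ≤ (N : ℝ) ^ c :=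
    min_le_right _ _
  have h4 : Real.sqrt (r.den * N) ≤ (N : ℝ) ^ c := by
    have e1 : (r.den : ℝ) ≤ (N : ℝ) ^ (1 / 2 : ℝ) := by
      rw [← Real.sqrt_eq_rpow]
      exact Real.le_sqrt_of_sq_le ((pow_le_pow_left₀ hden.le hdn 2).trans hnN)
    calc Real.sqrt (r.den * N) ≤ Real.sqrt ((N : ℝ) ^ (1 / 2 : ℝ) * N) :=
          Real.sqrt_le_sqrt (mul_le_mul_of_nonneg_right e1 hN0.le)
      _ = (N : ℝ) ^ (3 / 4 : ℝ) := by
          rw [Real.sqrt_eq_rpow]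
          nth_rewrite 2 [← Real.rpow_one (N : ℝ)]
          rw [← Real.rpow_add hN0, ← Real.rpow_mul hN0.le]
          norm_num
      _ ≤ (N : ℝ) ^ c := Real.rpow_le_rpow_of_exponent_le hN1 hc
  have h5 : 0 ≤ min ((N : ℝ) / Real.sqrt r.den + (N : ℝ) ^ (43 / 54 : ℝ)) ((N : ℝ) ^ c) :=
    le_min (by positivity) (by positivity)
  have h6 : 0 ≤ Real.sqrt (r.den * N) := Real.sqrt_nonneg _
  calc ‖FM N x‖ ≤ C * (N : ℝ) ^ ε * (min ((N : ℝ) / Real.sqrt r.den + (N : ℝ) ^ (43 / 54 : ℝ)) ((N : ℝ) ^ c) +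
        Real.sqrt (r.den * N)) := h1
    _ ≤ |C| * (N : ℝ) ^ ε * (min ((N : ℝ) / Real.sqrt r.den + (N : ℝ) ^ (43 / 54 : ℝ)) ((N : ℝ) ^ c) +
        Real.sqrt (r.den * N)) := by
        apply mul_le_mul_of_nonneg_right _ (by positivity)
        exact mul_le_mul_of_nonneg_right (le_abs_self C) (by positivity)
    _ ≤ |C| * (N : ℝ) ^ ε * (2 * (N : ℝ) ^ c) := by
        apply mul_le_mul_of_nonneg_left _ (by positivity)
        linarith
    _ = 2 * |C| * (N : ℝ) ^ (c + ε) := by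
        rw [Real.rpow_add hN0]
        ring

lemma zf_mono {a c : ℝ} (hac : a ≤ c) (h : ZF a) : ZF c :=
  fun q _ χ s hs hs1 => h q χ s (lt_of_le_of_lt hac hs) hs1

/-- Theorem W+, with the part `a ≤ 7/10` as a hypothesis. -/
theorem wplus_of (hI : ∀ a : ℝ, 1 / 2 ≤ a → a ≤ 7 / 10 → ZF a →
    Sup (3 / 4 + (1 - a) * (2 * a - 1) / (2 * (2 - a)))) {a : ℝ} (ha : 1 / 2 ≤ a) :
    (ZF a → Bd (hfun a)) ∧ (Bd (hfun a) → ZF (hfun a)) := by
  constructor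
  · intro hZ
    apply bd_of_sup
    unfold hfun
    split_ifs with h
    · exact hI a ha h hZ
    · have hc : 43 / 54 ≤ max a (43 / 54) := le_max_right _ _
      exact (w2 hc).2 (zf_mono (le_max_left _ _) hZ)
  · intro hB
    have h34 := hfun_ge ha
    exact zf_of_bound (by linarith) (sup_of_bd h34 hB)

end Pool.Agent.Helper25.WM
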